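import Pool.Agent.Lib.MP_4fbe7c_an.WN.Base

/-! Module ESG: the sign of the reaction term. -/

set_option autoImplicit false

open Set MeasureTheory

namespace Pool.Agent.Lib.MP_4fbe7c_an.WN.H74

open Pool.Agent.Lib.MP_4fbe7c_an.UL Pool.Agent.Lib.MP_4fbe7c_an.ND
open Pool.Agent.Lib.MP_4fbe7c_an.WN

theorem sum_Sb (n : ℕ) (κ : ℕ → ℝ) (a b : ℝ) (r : ℕ → ℝ) :
    ∑ i ∈ Finset.Ico 1 (n + 1), r i * Sb n κ a b r i = Nq n κ a b r := by
  unfold Sb Nq
  have h1 : ∑ i ∈ Finset.Ico 1 (n + 1), r i * (a * qv n r 1 +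
      b * ∑ k ∈ Finset.Ico 2 (i + 1), al κ k * qv n r k) =
      (a * qv n r 1) * ∑ i ∈ Finset.Ico 1 (n + 1), r i +
        b * ∑ i ∈ Finset.Ico 1 (n + 1), ∑ k ∈ Finset.Ico 2 (i + 1),
          (al κ k * qv n r k) * r i := by
    rw [Finset.mul_sum, Finset.mul_sum, ← Finset.sum_add_distrib]
    refine Finset.sum_congr rfl fun i _ => ?_
    rw [← Finset.sum_mul]
    ring
  have h2 : ∑ i ∈ Finset.Ico 1 (n + 1), ∑ k ∈ Finset.Ico 2 (i + 1),
      (al κ k * qv n r k) * r i =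
      ∑ k ∈ Finset.Ico 2 (n + 1), ∑ i ∈ Finset.Ico k (n + 1), (al κ k * qv n r k) * r i := by
    refine Finset.sum_comm' fun i k => ?_
    simp only [Finset.mem_Ico]
    omega
  rw [h1, h2]
  congr 1
  · unfold qv
    ring
  · congr 1
    refine Finset.sum_congr rfl fun k _ => ?_
    rw [← Finset.mul_sum]
    unfold qv
    ring

theorem Nq_le {n : ℕ} {K : ℝ} {κ r : ℕ → ℝ} (h : Kap n K κ) (hr : ∀ i, i ≤ n → 0 ≤ r i) :
    Nq n κ (wa K) (wb K) r ≤ qv n r 1 ^ 2 / 500 := by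
  have hv : 0 ≤ qv n r 1 := qv_nonneg hr
  have hK := h.nn
  have ha : wa K ≤ 1 / 1000 := by
    unfold wa
    apply one_div_le_one_div_of_le (by norm_num)
    linarith
  rcases Nat.eq_zero_or_pos n with h0 | h0
  · subst h0
    have e1 : qv 0 r 1 = 0 := by simp [qv]
    unfold Nq
    rw [e1]
    simp
  · have hKp : 0 < K := h.pos h0
    have hb := wb_nonneg K
    have hsum : ∑ k ∈ Finset.Ico 2 (n + 1), al κ k * qv n r k ^ 2 ≤ wid K * qv n r 1 ^ 2 := by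
      have h1 : ∑ k ∈ Finset.Ico 2 (n + 1), al κ k * qv n r k ^ 2 ≤
          ∑ k ∈ Finset.Ico 2 (n + 1), al κ k * qv n r 1 ^ 2 := by
        refine Finset.sum_le_sum fun k hk => ?_
        obtain ⟨h2, h3⟩ := Finset.mem_Ico.mp hk
        refine mul_le_mul_of_nonneg_left ?_ (al_nonneg h h2 (by omega))
        exact pow_le_pow_left₀ (qv_nonneg hr) (qv_anti hr (by omega)) 2
      rw [← Finset.sum_mul, sum_al κ h0, h.one] at h1
      have h4 := h.le n h0 le_rfl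
      have h5 : (κ n - 0) * qv n r 1 ^ 2 ≤ wid K * qv n r 1 ^ 2 :=
        mul_le_mul_of_nonneg_right (by linarith) (sq_nonneg _)
      linarith
    have hbw : wb K * wid K ≤ 1 / 100000 := by
      rw [wb_mul_wid hKp]
      apply one_div_le_one_div_of_le (by norm_num)
      nlinarith
    unfold Nq
    have h6 : wb K * ∑ k ∈ Finset.Ico 2 (n + 1), al κ k * qv n r k ^ 2 ≤
        wb K * (wid K * qv n r 1 ^ 2) := mul_le_mul_of_nonneg_left hsum hb
    have h7 : wb K * (wid K * qv n r 1 ^ 2) ≤ 1 / 100000 * qv n r 1 ^ 2 := by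
      rw [← mul_assoc]
      exact mul_le_mul_of_nonneg_right hbw (sq_nonneg _)
    have h8 : wa K * qv n r 1 ^ 2 ≤ 1 / 1000 * qv n r 1 ^ 2 :=
      mul_le_mul_of_nonneg_right ha (sq_nonneg _)
    have h9 := sq_nonneg (qv n r 1)
    linarith

theorem sum_Ff (n : ℕ) (κ : ℕ → ℝ) (a b : ℝ) (r : ℕ → ℝ) :
    ∑ i ∈ Finset.range (n + 1), r i * Ff n κ a b r i =
      r 0 * Ph1 (r 0) + qv n r 1 ^ 2 +
        Nq n κ a b r * (1 - (2 * qv n r 0 - 1) * Real.exp (4 - 4 * qv n r 0)) / 2 := by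
  have h1 : ∑ i ∈ Finset.range (n + 1), r i * Ff n κ a b r i =
      r 0 * Ff n κ a b r 0 + ∑ i ∈ Finset.Ico 1 (n + 1), r i * Ff n κ a b r i := by
    rw [Finset.range_eq_Ico, Finset.sum_eq_sum_Ico_succ_bot (by omega)]
  have h2 : ∑ i ∈ Finset.Ico 1 (n + 1), r i * Ff n κ a b r i =
      ∑ i ∈ Finset.Ico 1 (n + 1), (qv n r 1 * r i + hw (qv n r 0) * (r i * Sb n κ a b r i) +
        hw1 (qv n r 0) / 2 * Nq n κ a b r * r i) := by
    refine Finset.sum_congr rfl fun i hi => ?_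
    have : i ≠ 0 := by
      have := (Finset.mem_Ico.mp hi).1
      omega
    unfold Ff
    rw [if_neg this]
    ring
  rw [h1, h2, Finset.sum_add_distrib, Finset.sum_add_distrib, ← Finset.mul_sum, ← Finset.mul_sum,
    ← Finset.mul_sum, sum_Sb]
  have h3 : ∑ i ∈ Finset.Ico 1 (n + 1), r i = qv n r 1 := rfl
  rw [h3]
  have h4 : qv n r 0 = r 0 + qv n r 1 := qv_zero r
  unfold Ff
  rw [if_pos rfl]
  unfold hw hw1
  rw [h4]
  ring

theorem psi_nonneg {R : ℝ} (hR : 1 ≤ R) : 0 ≤ 1 - (2 * R - 1) * Real.exp (4 - 4 * R) := by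
  have h1 : 2 * R - 1 ≤ Real.exp (4 * (R - 1)) := by
    have := Real.add_one_le_exp (4 * (R - 1))
    linarith
  have h2 : (2 * R - 1) * Real.exp (4 - 4 * R) ≤
      Real.exp (4 * (R - 1)) * Real.exp (4 - 4 * R) :=
    mul_le_mul_of_nonneg_right h1 (Real.exp_pos _).le
  rw [← Real.exp_add] at h2
  have h3 : 4 * (R - 1) + (4 - 4 * R) = 0 := by ring
  rw [h3, Real.exp_zero] at h2
  linarith

theorem psi_le {R : ℝ} (h0 : 0 ≤ R) (hR : R < 1) :
    1 - (2 * R - 1) * Real.exp (4 - 4 * R) ≤ 112 * (1 - R) := by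
  rcases le_or_gt (1 / 2) R with h | h
  · have h1 : 1 ≤ Real.exp (4 - 4 * R) := Real.one_le_exp (by linarith)
    nlinarith
  · have h1 : Real.exp (4 - 4 * R) ≤ Real.exp 4 := Real.exp_le_exp.mpr (by linarith)
    have h2 : Real.exp 4 ≤ 55 := by
      have h3 : Real.exp 4 = Real.exp 1 ^ 4 := by
        rw [← Real.exp_nat_mul]
        norm_num
      rw [h3]
      have h4 := Real.exp_one_lt_d9
      have h5 : Real.exp 1 ^ 4 ≤ 2.7182818286 ^ 4 :=
        pow_le_pow_left₀ (Real.exp_pos 1).le h4.le 4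
      refine h5.trans ?_
      norm_num
    have h6 : 0 < Real.exp (4 - 4 * R) := Real.exp_pos _
    nlinarith

theorem esg_st : EsgStatement := by
  intro n K κ r hK hr
  have hr' : ∀ i, i ≤ n → 0 ≤ r i := fun i hi => (hr i hi).le
  have hN0 : 0 ≤ Nq n κ (wa K) (wb K) r := Nq_nonneg hK (wa_pos hK.nn).le (wb_nonneg K) r
  have hN1 := Nq_le hK hr'
  have hv : 0 ≤ qv n r 1 := qv_nonneg hr'
  have h4 : qv n r 0 = r 0 + qv n r 1 := qv_zero r
  have hr0 := hr 0 (Nat.zero_le n)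
  rw [sum_Ff]
  obtain ⟨N, hN⟩ : ∃ N, N = Nq n κ (wa K) (wb K) r := ⟨_, rfl⟩
  obtain ⟨R, hR⟩ : ∃ R, R = qv n r 0 := ⟨_, rfl⟩
  obtain ⟨v, hv'⟩ : ∃ v, v = qv n r 1 := ⟨_, rfl⟩
  obtain ⟨ψ, hψ⟩ : ∃ ψ, ψ = 1 - (2 * R - 1) * Real.exp (4 - 4 * R) := ⟨_, rfl⟩
  rw [← hN] at hN0 hN1 ⊢
  rw [← hv'] at hN1 hv h4 ⊢
  rw [← hR] at h4 ⊢
  rw [← hψ]
  rcases lt_or_ge (r 0) 1 with h1 | h1
  · have hP : r 0 * Ph1 (r 0) = -(1 - r 0) ^ 2 := by
      unfold Ph1
      rw [if_pos h1]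
      field_simp
    rw [hP]
    have e1 : (R - 1) * (-(1 - r 0) ^ 2 + v ^ 2 + N * ψ / 2) =
        (R - 1) ^ 2 * (1 + v - r 0) + (R - 1) * (N * ψ) / 2 := by
      rw [h4]
      ring
    rw [e1]
    have hpos : 0 ≤ 1 + v - r 0 := by linarith
    have hkey : -(1 / 2 * ((R - 1) ^ 2 * (1 + v - r 0))) ≤ (R - 1) * (N * ψ) / 2 := by
      rcases le_or_gt 1 R with h2 | h2
      · have h3 : 0 ≤ ψ := by
          rw [hψ]
          exact psi_nonneg h2
        have h5 : 0 ≤ (R - 1) * (N * ψ) := mul_nonneg (by linarith) (mul_nonneg hN0 h3)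
        have h6 : 0 ≤ (R - 1) ^ 2 * (1 + v - r 0) := mul_nonneg (sq_nonneg _) hpos
        linarith
      · have h3 : ψ ≤ 112 * (1 - R) := by
          rw [hψ]
          exact psi_le (by rw [h4]; linarith) h2
        have h5 : (1 - R) * (N * ψ) ≤ (1 - R) * (N * (112 * (1 - R))) :=
          mul_le_mul_of_nonneg_left (mul_le_mul_of_nonneg_left h3 hN0) (by linarith)
        have hv1 : v ≤ 1 := by linarith
        have h7 : v ^ 2 ≤ v := by nlinarith
        have h8 : N ≤ (1 + v - r 0) / 500 := by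
          refine hN1.trans ?_
          linarith
        have h9 : (1 - R) ^ 2 * N ≤ (1 - R) ^ 2 * ((1 + v - r 0) / 500) :=
          mul_le_mul_of_nonneg_left h8 (sq_nonneg _)
        have h10 : 0 ≤ (1 - R) ^ 2 * (1 + v - r 0) := mul_nonneg (sq_nonneg _) hpos
        have e2 : (R - 1) ^ 2 = (1 - R) ^ 2 := by ring
        rw [e2]
        have e3 : (1 - R) * (N * (112 * (1 - R))) = 112 * ((1 - R) ^ 2 * N) := by ring
        rw [e3] at h5
        have e4 : (R - 1) * (N * ψ) / 2 = -((1 - R) * (N * ψ)) / 2 := by ring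
        rw [e4]
        linarith
    have h6 : 0 ≤ (R - 1) ^ 2 * (1 + v - r 0) := mul_nonneg (sq_nonneg _) hpos
    exact ⟨by linarith, fun _ => by linarith⟩
  · have hP : r 0 * Ph1 (r 0) = 0 := by
      unfold Ph1
      rw [if_neg (not_lt.mpr h1), mul_zero]
    rw [hP, zero_add]
    have h2 : 1 ≤ R := by linarith
    have h3 : 0 ≤ ψ := by
      rw [hψ]
      exact psi_nonneg h2
    have h5 : 0 ≤ N * ψ / 2 := by positivity
    refine ⟨mul_nonneg (by linarith) (by positivity), fun h6 => ?_⟩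
    have h7 : r 0 = 1 := le_antisymm h6 h1
    have h8 : R - 1 = v := by rw [h4, h7]; ring
    rw [h8, h7]
    have h9 : 0 ≤ v ^ 3 := by positivity
    have h10 : 0 ≤ v * (N * ψ / 2) := mul_nonneg hv h5
    nlinarith

end Pool.Agent.Lib.MP_4fbe7c_an.WN.H74
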